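import Pool.Agent.Helper54.JET.Form

set_option autoImplicit false

/-! Certificate checker for quartic forms in jets (MP_3dd6d4, group JET). -/

namespace Pool.Agent.Helper53.JET

open Pool.Agent.Helper54.JET

/-! ### Keys of monomials -/

def pe (p : ℕ × ℕ) : ℕ := p.1 * 32 + p.2

def srt (a b s : ℕ) : ℕ := bif Nat.ble a b then a * s + b else b * s + a

/-- canonical key of a monomial (modulo the symmetries preserving the real part) -/
def key (q : Q4) : ℕ :=
  srt (srt (pe q.1) (pe q.2.1) 1024) (srt (pe q.2.2.1) (pe q.2.2.2) 1024) 1048576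

/-- evaluate a natural number before it is passed on (kernel reduction) -/
def force {α : Type} (n : ℕ) (f : ℕ → α) : α := Nat.rec (f 0) (fun k _ => f k) (n + 1)

theorem force_eq {α : Type} (n : ℕ) (f : ℕ → α) : force n f = f n := rfl

abbrev KL : Type := List (ℕ × ℤ)

def mrg : ℕ → KL → KL → KL
  | 0, xs, ys => xs ++ ys
  | _ + 1, [], ys => ys
  | _ + 1, x :: xs, [] => x :: xs
  | f + 1, x :: xs, y :: ys =>
    bif Nat.blt x.1 y.1 then x :: mrg f xs (y :: ys)
    else bif Nat.blt y.1 x.1 then y :: mrg f (x :: xs) ys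
    else (x.1, x.2 + y.2) :: mrg f xs ys

def mrgPairs (F : ℕ) : List KL → List KL
  | a :: b :: r => mrg F a b :: mrgPairs F r
  | [a] => [a]
  | [] => []

def rounds (F : ℕ) : ℕ → List KL → List KL
  | 0, l => l
  | k + 1, l => rounds F k (mrgPairs F l)

def toK (T : Fm) : List KL := T.map fun c => force (key c.2) fun k => [(k, c.1)]

def bounded (T : Fm) : Bool := T.all fun c => Nat.blt (ord c.2) 32

def allZ (L : KL) : Bool := L.all fun c => c.2 == 0

/-- the form is identically zero -/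
def chkZ (T : Fm) : Bool := bounded T && (rounds 100000 20 (toK T)).all allZ

/-! ### Soundness -/

noncomputable section

open Complex

def xv (X : ℕ × ℕ → ℂ) (a : ℕ) : ℂ := X (a / 32, a % 32)

def hv (X : ℕ × ℕ → ℂ) (p : ℕ) : ℂ := xv X (p / 1024) * xv X (p % 1024)

def kv (X : ℕ × ℕ → ℂ) (k : ℕ) : ℝ := (hv X (k / 1048576) * starRingEnd ℂ (hv X (k % 1048576))).re

def evK (X : ℕ × ℕ → ℂ) (L : KL) : ℝ := (L.map fun c => (c.2 : ℝ) * kv X c.1).sum

def evKK (X : ℕ × ℕ → ℂ) (L : List KL) : ℝ := (L.map (evK X)).sum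

lemma xv_pe (X : ℕ × ℕ → ℂ) (p : ℕ × ℕ) (h : p.2 < 32) : xv X (pe p) = X p := by
  unfold xv pe
  congr 1
  ext
  · show (p.1 * 32 + p.2) / 32 = p.1
    omega
  · show (p.1 * 32 + p.2) % 32 = p.2
    omega

lemma pe_lt (p : ℕ × ℕ) (h1 : p.1 < 32) (h2 : p.2 < 32) : pe p < 1024 := by
  unfold pe; omega

lemma hv_srt (X : ℕ × ℕ → ℂ) (a b : ℕ) (ha : a < 1024) (hb : b < 1024) :
    hv X (srt a b 1024) = xv X a * xv X b := by
  unfold srt hv
  rcases h : Nat.ble a b with _ | _
  · simp only [cond_false]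
    rw [show (b * 1024 + a) / 1024 = b by omega, show (b * 1024 + a) % 1024 = a by omega, mul_comm]
  · simp only [cond_true]
    rw [show (a * 1024 + b) / 1024 = a by omega, show (a * 1024 + b) % 1024 = b by omega]

lemma srt_lt (a b : ℕ) (ha : a < 1024) (hb : b < 1024) : srt a b 1024 < 1048576 := by
  unfold srt
  rcases h : Nat.ble a b with _ | _
  · simp only [cond_false]; omega
  · simp only [cond_true]; omega

lemma kv_srt (X : ℕ × ℕ → ℂ) (p r : ℕ) (hp : p < 1048576) (hr : r < 1048576) :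
    kv X (srt p r 1048576) = (hv X p * starRingEnd ℂ (hv X r)).re := by
  unfold srt kv
  rcases h : Nat.ble p r with _ | _
  · simp only [cond_false]
    rw [show (r * 1048576 + p) / 1048576 = r by omega, show (r * 1048576 + p) % 1048576 = p by omega,
      ← Complex.conj_re (hv X r * _), map_mul, Complex.conj_conj, mul_comm]
  · simp only [cond_true]
    rw [show (p * 1048576 + r) / 1048576 = p by omega, show (p * 1048576 + r) % 1048576 = r by omega]

lemma kv_key (X : ℕ × ℕ → ℂ) (q : Q4) (h : ord q < 32) : kv X (key q) = (mono q X).re := by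
  unfold ord at h
  have a1 := pe_lt q.1 (by omega) (by omega)
  have a2 := pe_lt q.2.1 (by omega) (by omega)
  have a3 := pe_lt q.2.2.1 (by omega) (by omega)
  have a4 := pe_lt q.2.2.2 (by omega) (by omega)
  unfold key
  rw [kv_srt X _ _ (srt_lt _ _ a1 a2) (srt_lt _ _ a3 a4), hv_srt X _ _ a1 a2, hv_srt X _ _ a3 a4,
    xv_pe X _ (by omega), xv_pe X _ (by omega), xv_pe X _ (by omega), xv_pe X _ (by omega), map_mul]
  unfold mono
  rw [mul_assoc (X q.1 * X q.2.1)]

lemma evK_append (X : ℕ × ℕ → ℂ) (a b : KL) : evK X (a ++ b) = evK X a + evK X b := by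
  unfold evK
  rw [List.map_append, List.sum_append]

lemma evK_cons (X : ℕ × ℕ → ℂ) (x : ℕ × ℤ) (b : KL) : evK X (x :: b) = (x.2 : ℝ) * kv X x.1 + evK X b := by
  unfold evK
  rw [List.map_cons, List.sum_cons]

lemma evK_mrg (X : ℕ × ℕ → ℂ) : ∀ (f : ℕ) (xs ys : KL), evK X (mrg f xs ys) = evK X xs + evK X ys
  | 0, xs, ys => by rw [mrg, evK_append]
  | f + 1, [], ys => by rw [mrg]; simp [evK]
  | f + 1, x :: xs, [] => by rw [mrg]; simp [evK]
  | f + 1, x :: xs, y :: ys => by
    rw [mrg]
    rcases h1 : Nat.blt x.1 y.1 with _ | _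
    · rcases h2 : Nat.blt y.1 x.1 with _ | _
      · simp only [cond_false]
        have e : x.1 = y.1 := by
          have k1 : ¬ x.1 < y.1 := by
            intro h; rw [← Nat.blt_eq] at h; rw [h] at h1; exact Bool.noConfusion h1
          have k2 : ¬ y.1 < x.1 := by
            intro h; rw [← Nat.blt_eq] at h; rw [h] at h2; exact Bool.noConfusion h2
          omega
        rw [evK_cons, evK_mrg X f xs ys, evK_cons, evK_cons]
        simp only [e]
        push_cast
        ring
      · simp only [cond_false, cond_true]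
        rw [evK_cons, evK_mrg X f (x :: xs) ys, evK_cons X y ys]
        ring
    · simp only [cond_true]
      rw [evK_cons, evK_mrg X f xs (y :: ys), evK_cons X x xs]
      ring

lemma evKK_cons (X : ℕ × ℕ → ℂ) (x : KL) (b : List KL) : evKK X (x :: b) = evK X x + evKK X b := by
  unfold evKK
  rw [List.map_cons, List.sum_cons]

lemma evKK_pairs (X : ℕ × ℕ → ℂ) (F : ℕ) : ∀ l : List KL, evKK X (mrgPairs F l) = evKK X l
  | a :: b :: r => by
    rw [mrgPairs, evKK_cons, evK_mrg, evKK_pairs X F r, evKK_cons, evKK_cons]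
    ring
  | [a] => by rw [mrgPairs]
  | [] => by rw [mrgPairs]

lemma evKK_rounds (X : ℕ × ℕ → ℂ) (F : ℕ) : ∀ (k : ℕ) (l : List KL), evKK X (rounds F k l) = evKK X l
  | 0, l => by rw [rounds]
  | k + 1, l => by rw [rounds, evKK_rounds X F k, evKK_pairs]

lemma evK_allZ (X : ℕ × ℕ → ℂ) : ∀ L : KL, allZ L = true → evK X L = 0
  | [], _ => rfl
  | x :: xs, h => by
    unfold allZ at h
    rw [List.all_cons, Bool.and_eq_true] at h
    rw [evK_cons, evK_allZ X xs h.2, (beq_iff_eq.1 h.1)]
    simp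

lemma evKK_allZ (X : ℕ × ℕ → ℂ) : ∀ L : List KL, L.all allZ = true → evKK X L = 0
  | [], _ => rfl
  | x :: xs, h => by
    rw [List.all_cons, Bool.and_eq_true] at h
    rw [evKK_cons, evK_allZ X x h.1, evKK_allZ X xs h.2, add_zero]

lemma ev_cons (c : ℤ × Q4) (T : Fm) (X : ℕ × ℕ → ℂ) :
    ev (c :: T) X = (c.1 : ℝ) * (mono c.2 X).re + ev T X := by
  unfold ev
  rw [List.map_cons, List.sum_cons]

lemma ev_append (S T : Fm) (X : ℕ × ℕ → ℂ) : ev (S ++ T) X = ev S X + ev T X := by
  unfold ev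
  rw [List.map_append, List.sum_append]

lemma ev_nil (X : ℕ × ℕ → ℂ) : ev [] X = 0 := rfl

lemma ev_sc (a : ℤ) (X : ℕ × ℕ → ℂ) : ∀ T : Fm, ev (sc a T) X = (a : ℝ) * ev T X
  | [] => by simp [ev, sc]
  | c :: T => by
    have h := ev_sc a X T
    unfold sc at h ⊢
    rw [List.map_cons, ev_cons, ev_cons, h]
    push_cast
    ring

lemma evKK_toK (X : ℕ × ℕ → ℂ) : ∀ T : Fm, bounded T = true → evKK X (toK T) = ev T X
  | [], _ => rfl
  | c :: T, h => by
    unfold bounded at h
    rw [List.all_cons, Bool.and_eq_true] at h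
    have ih := evKK_toK X T h.2
    unfold toK at ih ⊢
    rw [List.map_cons, evKK_cons, ih, ev_cons, force_eq]
    simp only [evK, List.map_cons, List.map_nil, List.sum_cons, List.sum_nil, add_zero]
    rw [kv_key X c.2 (by rw [← Nat.blt_eq]; exact h.1)]

theorem chkZ_sound (T : Fm) (h : chkZ T = true) (X : ℕ × ℕ → ℂ) : ev T X = 0 := by
  unfold chkZ at h
  rw [Bool.and_eq_true] at h
  rw [← evKK_toK X T h.1, ← evKK_rounds X 100000 20, evKK_allZ X _ h.2]

end

/-! ### Gram blocks -/


/-- a Gram block: kind (`true`: `J conj J'`), basis, matrix `G`, factor `q`, lower triangular `L` -/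
structure Blk where
  kind : Bool
  basis : List ((ℕ × ℕ) × (ℕ × ℕ))
  G : List (List ℤ)
  q : ℤ
  L : List (List ℤ)

def quadM (k : Bool) (x y : (ℕ × ℕ) × (ℕ × ℕ)) : Q4 :=
  bif k then (x.1, y.2, x.2, y.1) else (x.1, x.2, y.1, y.2)

def dot : List ℤ → List ℤ → ℤ
  | a :: u, b :: v => a * b + dot u v
  | _, _ => 0

def Blk.g (B : Blk) (a b : ℕ) : ℤ := (B.G.getD a []).getD b 0

def Blk.e (B : Blk) (a b : ℕ) : ℤ := B.q * B.g a b - dot (B.L.getD a []) (B.L.getD b [])

def Blk.bs (B : Blk) (a : ℕ) : (ℕ × ℕ) × (ℕ × ℕ) := B.basis.getD a ((0, 0), (0, 0))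

def Blk.form (B : Blk) : Fm :=
  (List.range B.basis.length).flatMap fun a =>
    (List.range B.basis.length).map fun b => (B.g a b, quadM B.kind (B.bs a) (B.bs b))

def sumAbs (f : ℕ → ℤ) (l : List ℕ) : ℤ := l.foldr (fun b s => |f b| + s) 0

def Blk.ok (B : Blk) : Bool :=
  decide (0 < B.q) &&
  ((List.range B.basis.length).all fun a =>
    ((List.range B.basis.length).all fun b => B.g a b == B.g b a) &&
    decide (sumAbs (B.e a) (List.range B.basis.length) ≤ 2 * B.e a a))

noncomputable section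

open Finset

def qv (k : Bool) (x : (ℕ × ℕ) × (ℕ × ℕ)) (X : ℕ × ℕ → ℂ) : ℂ :=
  bif k then X x.1 * starRingEnd ℂ (X x.2) else X x.1 * X x.2

lemma mono_quadM (k : Bool) (x y : (ℕ × ℕ) × (ℕ × ℕ)) (X : ℕ × ℕ → ℂ) :
    mono (quadM k x y) X = qv k x X * starRingEnd ℂ (qv k y X) := by
  rcases k with _ | _
  · simp only [quadM, qv, cond_false, mono, map_mul]; ring
  · simp only [quadM, qv, cond_true, mono, map_mul, Complex.conj_conj]; ring

lemma dot_eq : ∀ (u v : List ℤ) (m : ℕ), u.length ≤ m →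
    dot u v = ∑ k ∈ range m, u.getD k 0 * v.getD k 0
  | [], v, m, _ => by simp [dot]
  | a :: u, [], m, _ => by simp [dot]
  | a :: u, b :: v, 0, h => by simp at h
  | a :: u, b :: v, m + 1, h => by
    rw [dot, sum_range_succ', dot_eq u v m (by simpa using h)]
    simp [add_comm]

lemma sumAbs_eq (f : ℕ → ℤ) (l : List ℕ) : sumAbs f l = (l.map fun b => |f b|).sum := by
  induction l with
  | nil => rfl
  | cons x l ih =>
    rw [List.map_cons, List.sum_cons, ← ih]
    rfl

lemma list_range_sum {M : Type} [AddCommMonoid M] (f : ℕ → M) (n : ℕ) :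
    ((List.range n).map f).sum = ∑ i ∈ range n, f i := by
  rw [Finset.sum_eq_multiset_sum, Finset.range_val, ← Multiset.coe_range, Multiset.map_coe,
    Multiset.sum_coe]

lemma flatMap_ev (X : ℕ × ℕ → ℂ) (f : ℕ → Fm) : ∀ l : List ℕ,
    ev (l.flatMap f) X = (l.map fun a => ev (f a) X).sum
  | [] => rfl
  | a :: l => by
    rw [List.flatMap_cons, ev_append, flatMap_ev X f l, List.map_cons, List.sum_cons]

lemma form_ev (B : Blk) (X : ℕ × ℕ → ℂ) :
    ev B.form X = ∑ a ∈ range B.basis.length, ∑ b ∈ range B.basis.length,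
      (B.g a b : ℝ) * (qv B.kind (B.bs a) X * starRingEnd ℂ (qv B.kind (B.bs b) X)).re := by
  unfold Blk.form
  rw [flatMap_ev, list_range_sum]
  refine sum_congr rfl fun a _ => ?_
  unfold ev
  rw [List.map_map, list_range_sum]
  refine sum_congr rfl fun b _ => ?_
  simp only [Function.comp, mono_quadM]

lemma psd (s m : ℕ) (q : ℝ) (hq : 0 < q) (G L : ℕ → ℕ → ℝ)
    (hs : ∀ a < s, ∀ b < s, G a b = G b a)
    (hd : ∀ a < s, ∑ b ∈ range s, |q * G a b - ∑ k ∈ range m, L a k * L b k| ≤
      2 * (q * G a a - ∑ k ∈ range m, L a k * L a k)) (x : ℕ → ℂ) :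
    0 ≤ ∑ a ∈ range s, ∑ b ∈ range s, G a b * (x a * starRingEnd ℂ (x b)).re := by
  set E : ℕ → ℕ → ℝ := fun a b => q * G a b - ∑ k ∈ range m, L a k * L b k with hE
  have hEs : ∀ a < s, ∀ b < s, E a b = E b a := by
    intro a ha b hb
    simp only [hE]
    rw [hs a ha b hb]
    congr 1
    exact sum_congr rfl fun k _ => mul_comm _ _
  have h1 : q * ∑ a ∈ range s, ∑ b ∈ range s, G a b * (x a * starRingEnd ℂ (x b)).re =
      (∑ a ∈ range s, ∑ b ∈ range s, (∑ k ∈ range m, L a k * L b k) * (x a * starRingEnd ℂ (x b)).re) +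
      ∑ a ∈ range s, ∑ b ∈ range s, E a b * (x a * starRingEnd ℂ (x b)).re := by
    rw [mul_sum, ← sum_add_distrib]
    refine sum_congr rfl fun a _ => ?_
    rw [mul_sum, ← sum_add_distrib]
    refine sum_congr rfl fun b _ => ?_
    simp only [hE]
    ring
  have h2 : (∑ a ∈ range s, ∑ b ∈ range s, (∑ k ∈ range m, L a k * L b k) *
      (x a * starRingEnd ℂ (x b)).re) = ∑ k ∈ range m, Complex.normSq (∑ a ∈ range s, (L a k : ℂ) * x a) := by
    have h3 : ∀ k, Complex.normSq (∑ a ∈ range s, (L a k : ℂ) * x a) =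
        ∑ a ∈ range s, ∑ b ∈ range s, (L a k * L b k) * (x a * starRingEnd ℂ (x b)).re := by
      intro k
      have h4 : ((Complex.normSq (∑ a ∈ range s, (L a k : ℂ) * x a) : ℝ) : ℂ) =
          ∑ a ∈ range s, ∑ b ∈ range s, (((L a k * L b k : ℝ)) : ℂ) * (x a * starRingEnd ℂ (x b)) := by
        rw [← Complex.mul_conj, map_sum, sum_mul_sum]
        refine sum_congr rfl fun a _ => sum_congr rfl fun b _ => ?_
        rw [map_mul, Complex.conj_ofReal]
        push_cast
        ring
      have h5 := congrArg Complex.re h4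
      rw [Complex.ofReal_re] at h5
      rw [h5, Complex.re_sum]
      refine sum_congr rfl fun a _ => ?_
      rw [Complex.re_sum]
      refine sum_congr rfl fun b _ => ?_
      rw [Complex.re_ofReal_mul]
    simp only [h3]
    calc (∑ a ∈ range s, ∑ b ∈ range s, (∑ k ∈ range m, L a k * L b k) *
          (x a * starRingEnd ℂ (x b)).re) = ∑ a ∈ range s, ∑ b ∈ range s, ∑ k ∈ range m,
          L a k * L b k * (x a * starRingEnd ℂ (x b)).re := by simp only [sum_mul]
      _ = ∑ a ∈ range s, ∑ k ∈ range m, ∑ b ∈ range s,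
          L a k * L b k * (x a * starRingEnd ℂ (x b)).re := sum_congr rfl fun a _ => sum_comm
      _ = _ := sum_comm
  have h3 : 0 ≤ ∑ a ∈ range s, ∑ b ∈ range s, E a b * (x a * starRingEnd ℂ (x b)).re := by
    have k1 : ∀ a ∈ range s, ∀ b ∈ range s,
        -(|E a b| * ((Complex.normSq (x a) + Complex.normSq (x b)) / 2)) +
          (if a = b then 2 * E a a * Complex.normSq (x a) else 0) ≤
          E a b * (x a * starRingEnd ℂ (x b)).re := by
      intro a _ b _
      by_cases hab : a = b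
      · subst hab
        rw [if_pos rfl, Complex.mul_conj, Complex.ofReal_re]
        have := Complex.normSq_nonneg (x a)
        have := le_abs_self (E a a)
        nlinarith
      · rw [if_neg hab, add_zero]
        have k2 : |(x a * starRingEnd ℂ (x b)).re| ≤ (Complex.normSq (x a) + Complex.normSq (x b)) / 2 := by
          rw [Complex.normSq_apply, Complex.normSq_apply, abs_le]
          simp only [Complex.mul_re, Complex.conj_re, Complex.conj_im]
          constructor
          · nlinarith [sq_nonneg ((x a).re + (x b).re), sq_nonneg ((x a).im + (x b).im)]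
          · nlinarith [sq_nonneg ((x a).re - (x b).re), sq_nonneg ((x a).im - (x b).im)]
        have k3 : |E a b * (x a * starRingEnd ℂ (x b)).re| ≤
            |E a b| * ((Complex.normSq (x a) + Complex.normSq (x b)) / 2) := by
          rw [abs_mul]
          exact mul_le_mul_of_nonneg_left k2 (abs_nonneg _)
        linarith [neg_abs_le (E a b * (x a * starRingEnd ℂ (x b)).re)]
    have k4 := sum_le_sum fun a ha => sum_le_sum (k1 a ha)
    refine le_trans ?_ k4
    have k5 : ∑ a ∈ range s, ∑ b ∈ range s,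
        (-(|E a b| * ((Complex.normSq (x a) + Complex.normSq (x b)) / 2)) +
          (if a = b then 2 * E a a * Complex.normSq (x a) else 0)) =
        ∑ a ∈ range s, (2 * E a a - ∑ b ∈ range s, |E a b|) * Complex.normSq (x a) := by
      have k6 : ∑ a ∈ range s, ∑ b ∈ range s, |E a b| * Complex.normSq (x b) =
          ∑ a ∈ range s, ∑ b ∈ range s, |E a b| * Complex.normSq (x a) := by
        rw [sum_comm]
        refine sum_congr rfl fun a ha => sum_congr rfl fun b hb => ?_
        rw [hEs b (mem_range.1 hb) a (mem_range.1 ha)]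
      have k7 : ∀ a ∈ range s, ∑ b ∈ range s, (if a = b then 2 * E a a * Complex.normSq (x a) else 0) =
          2 * E a a * Complex.normSq (x a) := by
        intro a ha
        rw [sum_ite_eq, if_pos ha]
      have k8 : ∑ a ∈ range s, ∑ b ∈ range s,
        (-(|E a b| * ((Complex.normSq (x a) + Complex.normSq (x b)) / 2)) +
          (if a = b then 2 * E a a * Complex.normSq (x a) else 0)) =
          -(1 / 2) * (∑ a ∈ range s, ∑ b ∈ range s, |E a b| * Complex.normSq (x a)) -
          (1 / 2) * (∑ a ∈ range s, ∑ b ∈ range s, |E a b| * Complex.normSq (x b)) +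
          ∑ a ∈ range s, 2 * E a a * Complex.normSq (x a) := by
        rw [← sum_congr rfl k7]
        rw [mul_sum, mul_sum, ← sum_sub_distrib, ← sum_add_distrib]
        refine sum_congr rfl fun a _ => ?_
        rw [mul_sum, mul_sum, ← sum_sub_distrib, ← sum_add_distrib]
        refine sum_congr rfl fun b _ => ?_
        ring
      rw [k8, k6]
      have k9 : ∑ a ∈ range s, (2 * E a a - ∑ b ∈ range s, |E a b|) * Complex.normSq (x a) =
          ∑ a ∈ range s, 2 * E a a * Complex.normSq (x a) -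
          ∑ a ∈ range s, ∑ b ∈ range s, |E a b| * Complex.normSq (x a) := by
        rw [← sum_sub_distrib]
        refine sum_congr rfl fun a _ => ?_
        rw [sub_mul, sum_mul]
      rw [k9]
      ring
    rw [k5]
    refine sum_nonneg fun a ha => mul_nonneg ?_ (Complex.normSq_nonneg _)
    have := hd a (mem_range.1 ha)
    simp only [hE]
    linarith
  have h4 : 0 ≤ q * ∑ a ∈ range s, ∑ b ∈ range s, G a b * (x a * starRingEnd ℂ (x b)).re := by
    rw [h1, h2]
    exact add_nonneg (sum_nonneg fun k _ => Complex.normSq_nonneg _) h3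
  exact nonneg_of_mul_nonneg_right h4 hq

theorem Blk.ok_sound (B : Blk) (h : B.ok = true) (X : ℕ × ℕ → ℂ) : 0 ≤ ev B.form X := by
  unfold Blk.ok at h
  rw [Bool.and_eq_true, decide_eq_true_iff, List.all_eq_true] at h
  obtain ⟨hq, h⟩ := h
  rw [form_ev]
  set m := (B.L.map List.length).sum with hm
  have hlen : ∀ a, (B.L.getD a []).length ≤ m := by
    intro a
    rw [hm]
    rcases Nat.lt_or_ge a B.L.length with h1 | h1
    · rw [List.getD_eq_getElem _ _ h1]
      exact List.single_le_sum (by intros; omega) _ (List.mem_map_of_mem (List.getElem_mem h1))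
    · rw [List.getD_eq_default _ _ h1]
      simp
  have hdot : ∀ a b, ((B.e a b : ℤ) : ℝ) = (B.q : ℝ) * (B.g a b : ℝ) -
      ∑ k ∈ range m, (((B.L.getD a []).getD k 0 : ℤ) : ℝ) * (((B.L.getD b []).getD k 0 : ℤ) : ℝ) := by
    intro a b
    unfold Blk.e
    rw [dot_eq _ _ m (hlen a)]
    push_cast
    rfl
  refine psd B.basis.length m (B.q : ℝ) (by exact_mod_cast hq) (fun a b => (B.g a b : ℝ))
    (fun a k => (((B.L.getD a []).getD k 0 : ℤ) : ℝ)) ?_ ?_ (fun a => qv B.kind (B.bs a) X)
  · intro a ha b hb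
    have h1 := h a (List.mem_range.2 ha)
    rw [Bool.and_eq_true, List.all_eq_true] at h1
    have h2 := h1.1 b (List.mem_range.2 hb)
    rw [beq_iff_eq] at h2
    simp only [h2]
  · intro a ha
    have h1 := h a (List.mem_range.2 ha)
    rw [Bool.and_eq_true, decide_eq_true_iff] at h1
    have h2 := h1.2
    rw [sumAbs_eq, list_range_sum] at h2
    have h3 : ((∑ b ∈ range B.basis.length, |B.e a b| : ℤ) : ℝ) ≤ ((2 * B.e a a : ℤ) : ℝ) := by
      exact_mod_cast h2
    push_cast at h3
    simp only [hdot] at h3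
    exact h3

/-- the form is a sum of the Gram blocks -/
def chk (T : Fm) (Bs : List Blk) : Bool :=
  Bs.all Blk.ok && chkZ (T ++ sc (-1) (Bs.flatMap Blk.form))

lemma flatMap_form_nonneg (X : ℕ × ℕ → ℂ) : ∀ Bs : List Blk, Bs.all Blk.ok = true →
    0 ≤ ev (Bs.flatMap Blk.form) X
  | [], _ => le_of_eq rfl
  | B :: Bs, h => by
    rw [List.all_cons, Bool.and_eq_true] at h
    rw [List.flatMap_cons, ev_append]
    exact add_nonneg (B.ok_sound h.1 X) (flatMap_form_nonneg X Bs h.2)

theorem chk_sound (T : Fm) (Bs : List Blk) (h : chk T Bs = true) (X : ℕ × ℕ → ℂ) : 0 ≤ ev T X := by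
  unfold chk at h
  rw [Bool.and_eq_true] at h
  have h1 := chkZ_sound _ h.2 X
  rw [ev_append, ev_sc] at h1
  have h2 := flatMap_form_nonneg X Bs h.1
  push_cast at h1
  linarith

/-- the form of identity M -/
def formM (n m : ℕ) (U0 Mi : Fm) (A B : ℤ) : Fm :=
  (A, ((m, n + m), (m, n + m), (m, n + m), (m, n + m))) ::
    (-B, ((n + m, m), (n + m, m), (n + m, m), (n + m, m))) :: sc (-1) (U0 ++ apD Mi)

theorem formM_sound (n m : ℕ) (U0 Mi : Fm) (A B : ℤ) (X : ℕ × ℕ → ℂ)
    (h : 0 ≤ ev (formM n m U0 Mi A B) X) :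
    ev (U0 ++ apD Mi) X + (B : ℝ) * ‖X (n + m, m)‖ ^ 4 ≤ (A : ℝ) * ‖X (m, n + m)‖ ^ 4 := by
  have h4 : ∀ p : ℕ × ℕ, (mono (p, p, p, p) X).re = ‖X p‖ ^ 4 := by
    intro p
    have : mono (p, p, p, p) X = (((‖X p‖ ^ 4 : ℝ)) : ℂ) := by
      unfold mono
      have h5 : X p * starRingEnd ℂ (X p) = (((‖X p‖ ^ 2 : ℝ)) : ℂ) := by
        rw [Complex.mul_conj, Complex.normSq_eq_norm_sq]
      calc X p * X p * starRingEnd ℂ (X p) * starRingEnd ℂ (X p) =
          (X p * starRingEnd ℂ (X p)) * (X p * starRingEnd ℂ (X p)) := by ring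
        _ = _ := by rw [h5]; push_cast; ring
    rw [this, Complex.ofReal_re]
  unfold formM at h
  rw [ev_cons, ev_cons, ev_sc] at h
  simp only [h4] at h
  push_cast at h
  linarith

end

end Pool.Agent.Helper53.JET
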