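import Pool.Agent.Helper53.JET.Check

set_option autoImplicit false

/-! Decoding of certificate data. -/

namespace Pool.Agent.Helper53.JET

open Pool.Agent.Helper54.JET

/-- decode a monomial (8 digits, base 32) -/
def dq (k : ℕ) : Q4 :=
  ((k / 34359738368 % 32, k / 1073741824 % 32), (k / 33554432 % 32, k / 1048576 % 32),
    (k / 32768 % 32, k / 1024 % 32), (k / 32 % 32, k % 32))

/-- decode a term: coefficient (offset `2^40`) and monomial -/
def dt (n : ℕ) : ℤ × Q4 := (Int.subNatNat (n / 1099511627776) 1099511627776, dq (n % 1099511627776))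

/-- decode a basis element -/
def db (k : ℕ) : (ℕ × ℕ) × (ℕ × ℕ) := ((k / 32768 % 32, k / 1024 % 32), (k / 32 % 32, k % 32))

/-- decode a row of integers (digits base `2^40`, offset `2^39`) -/
def unp : ℕ → ℕ → List ℤ
  | 0, _ => []
  | f + 1, n => Int.subNatNat (n % 1099511627776) 549755813888 ::
      force (n / 1099511627776) (fun m => unp f m)

end Pool.Agent.Helper53.JET
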