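import Pool.Agent.Helper54.JET.Final
import Pool.Agent.Helper53.JET.N2
import Pool.Agent.Helper53.JET.N3
import Pool.Agent.Helper53.JET.N4

set_option autoImplicit false

/-! Q1 at `p = 4`, `n = 2, 3, 4`, from the certificates. -/

namespace Pool.Agent.Helper53.JET

open Pool.Agent.Helper54.JET

/-- the `S04423` bound with `p = 4` and constant `C` -/
def Bd4 (n : ℕ) (C : ℝ) : Prop :=
  ∀ f : SchwartzMap ℂ ℂ,
    MeasureTheory.eLpNorm
        (fun z : ℂ => ∫ ξ : ℂ,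
          Complex.exp (2 * (Real.pi : ℂ) * Complex.I * ((z.re * ξ.re + z.im * ξ.im : ℝ) : ℂ)) *
            ((starRingEnd ℂ ξ / ξ) ^ n *
              ∫ w : ℂ, Complex.exp (-(2 * (Real.pi : ℂ) * Complex.I *
                ((w.re * ξ.re + w.im * ξ.im : ℝ) : ℂ))) * f w))
        (ENNReal.ofReal 4) MeasureTheory.volume
      ≤ ENNReal.ofReal C *
        MeasureTheory.eLpNorm (fun z : ℂ => f z) (ENNReal.ofReal 4) MeasureTheory.volume

/-- certificate data imply the bound -/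
theorem bd4_of (n m K : ℕ) (hn : 1 ≤ n) (U M : List Fm) (Mi : Fm) (bR bM : List Blk) (A B : ℤ)
    (ho : ordOK (n + 2 * m) U M K = true) (h1 : bR.all Blk.ok = true) (h2 : bM.all Blk.ok = true)
    (h3 : chkZ (body U M K ++ sc (-1) (bR.flatMap Blk.form)) = true)
    (h4 : chkZ (formM n m (U.getD 0 []) Mi A B ++ sc (-1) (bM.flatMap Blk.form)) = true)
    (hB : 0 < B) (C : ℝ) (hC : 0 ≤ C) (hA : (A : ℝ) ≤ B * C ^ 4) : Bd4 n C := by
  intro f
  refine frameT n m K hn U M Mi (A : ℝ) (B : ℝ) C ho (fun X => ?_) (fun X => ?_)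
    (by exact_mod_cast hB) hC hA f
  · exact chk_sound _ bR (by unfold chk; rw [h1, h3]; rfl) X
  · exact formM_sound n m _ Mi A B X (chk_sound _ bM (by unfold chk; rw [h2, h4]; rfl) X)

theorem sqrt_pow4 (x : ℝ) (hx : 0 ≤ x) : (3 * Real.sqrt x) ^ 4 = 81 * x ^ 2 := by
  have h : (3 * Real.sqrt x) ^ 4 = 81 * (Real.sqrt x ^ 2) ^ 2 := by ring
  rw [h, Real.sq_sqrt hx]

theorem n2 : Bd4 2 (3 * Real.sqrt 2) :=
  bd4_of 2 0 2 (by norm_num) N2.U N2.M [] N2.bR N2.bM 648000 2000 N2.ord_ok N2.okR N2.okM N2.zR N2.zM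
    (by norm_num) _ (by positivity) (by rw [sqrt_pow4 2 (by norm_num)]; norm_num)

theorem n3 : Bd4 3 (3 * Real.sqrt 3) :=
  bd4_of 3 0 2 (by norm_num) N3.U N3.M [] N3.bR N3.bM 1458000 2000 N3.ord_ok N3.okR N3.okM N3.zR N3.zM
    (by norm_num) _ (by positivity) (by rw [sqrt_pow4 3 (by norm_num)]; norm_num)

theorem n4 : Bd4 4 (3 * Real.sqrt 4) :=
  bd4_of 4 0 2 (by norm_num) N4.U N4.M [] N4.bR N4.bM 2592000 2000 N4.ord_ok N4.okR N4.okM N4.zR N4.zM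
    (by norm_num) _ (by positivity) (by rw [sqrt_pow4 4 (by norm_num)]; norm_num)

/-- Q1 at `p = 4` for `2 ≤ n ≤ 4` -/
theorem q1_four (n : ℕ) (h2 : 2 ≤ n) (h4 : n ≤ 4) : Bd4 n ((n : ℝ) ^ (1 - 2 / (4 : ℝ)) * (4 - 1)) := by
  have e : ∀ x : ℝ, x ^ (1 - 2 / (4 : ℝ)) * (4 - 1) = 3 * Real.sqrt x := by
    intro x
    rw [Real.sqrt_eq_rpow]
    norm_num
    ring
  rw [e]
  interval_cases n
  · exact_mod_cast n2
  · exact_mod_cast n3
  · exact_mod_cast n4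

end Pool.Agent.Helper53.JET
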